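import Pool.Agent.Lib.MP_d9b062_al.Defs2
import Pool.Agent.Lib.MP_d9b062_al_h64.Alg

/-!
# MOS2: semisimple groups have no characters
-/

set_option linter.unusedSectionVars false

namespace Pool.Agent.Lib.MP_d9b062_al

open NormedSpace Filter
open scoped Topology InnerProductSpace

namespace H19

lemma lie_top_eq_top {L : Type*} [LieRing L] [LieAlgebra ℝ L] [LieAlgebra.IsSemisimple ℝ L] :
    ⁅(⊤ : LieIdeal ℝ L), (⊤ : LieIdeal ℝ L)⁆ = ⊤ := by
  rw [eq_top_iff, ← LieAlgebra.IsSemisimple.sSup_atoms_eq_top (R := ℝ) (L := L)]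
  refine sSup_le fun I hI => ?_
  have h1 : ⁅I, I⁆ ≤ I := LieSubmodule.lie_le_right I I
  have h2 : ⁅I, I⁆ ≠ ⊥ := fun h => LieAlgebra.IsSemisimple.non_abelian_of_isAtom I hI
    ((LieSubmodule.lie_abelian_iff_lie_self_eq_bot I).2 h)
  have h3 : ⁅I, I⁆ = I := ((IsAtom.le_iff hI).1 h1).resolve_left h2
  conv_lhs => rw [← h3]
  exact LieSubmodule.mono_lie (le_sSup hI) (le_sSup hI)

/-- A linear functional which vanishes on all brackets vanishes on a semisimple Lie algebra. -/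
lemma eq_zero_of_bracket {L : Type*} [LieRing L] [LieAlgebra ℝ L] [LieAlgebra.IsSemisimple ℝ L]
    (f : L →ₗ[ℝ] ℝ) (h : ∀ x y : L, f ⁅x, y⁆ = 0) : f = 0 := by
  have h1 : (⊤ : Submodule ℝ L) ≤ LinearMap.ker f := by
    have h2 := LieSubmodule.lieIdeal_oper_eq_linear_span' (I := (⊤ : LieIdeal ℝ L))
      (N := (⊤ : LieIdeal ℝ L))
    rw [lie_top_eq_top] at h2
    have h3 : (LieSubmodule.toSubmodule (⊤ : LieIdeal ℝ L)) = ⊤ := rfl
    rw [h3] at h2
    rw [h2, Submodule.span_le]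
    rintro _ ⟨x, _, y, _, rfl⟩
    exact h x y
  ext x
  exact h1 (Submodule.mem_top (x := x))

/-- A semisimple Lie algebra has trivial centre. -/
lemma eq_zero_of_central {L : Type*} [LieRing L] [LieAlgebra ℝ L] [LieAlgebra.IsSemisimple ℝ L]
    {z : L} (h : ∀ x : L, ⁅x, z⁆ = 0) : z = 0 := by
  have h1 : z ∈ LieAlgebra.center ℝ L := (LieModule.mem_maxTrivSubmodule ℝ L L z).2 h
  rw [LieAlgebra.center_eq_bot] at h1
  exact (LieSubmodule.mem_bot _).1 h1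

section char

variable {E F : Type*} [NormedAddCommGroup E] [InnerProductSpace ℝ E] [CompleteSpace E]
  [FiniteDimensional ℝ E] [NormedAddCommGroup F] [InnerProductSpace ℝ F] [CompleteSpace F]
  [FiniteDimensional ℝ F]

lemma hasDerivAt_exp0 (X : E →L[ℝ] E) :
    HasDerivAt (fun s : ℝ => (exp (s • X) : E →L[ℝ] E)) X 0 := by
  have h1 := hasDerivAt_exp_smul_const (𝕂 := ℝ) X (0 : ℝ)
  simpa using h1

lemma hasDerivAt_conj_exp (X Y : E →L[ℝ] E) :
    HasDerivAt (fun s : ℝ => exp (s • X) * Y * exp (s • (-X))) (X * Y - Y * X) 0 := by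
  have h3 := ((hasDerivAt_exp0 X).mul_const Y).mul (hasDerivAt_exp0 (-X))
  refine h3.congr_deriv ?_
  simp [sub_eq_add_neg]

variable {G : Subgroup (E →L[ℝ] E)ˣ} (R : (E →L[ℝ] E) →* (F →L[ℝ] F)) (w : F)

/-- the eigenvalue of `R T` on `w` -/
noncomputable def chi (T : E →L[ℝ] E) : ℝ := (‖w‖ ^ 2)⁻¹ * ⟪w, R T w⟫_ℝ

variable {R w}

lemma chi_polyFun (hR : IsPolyMap (R : (E →L[ℝ] E) → (F →L[ℝ] F))) :
    chi R w ∈ PolyFun (E →L[ℝ] E) := by
  let φ : (F →L[ℝ] F) →ₗ[ℝ] ℝ := (‖w‖ ^ 2)⁻¹ •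
    ((innerSL ℝ w : F →L[ℝ] ℝ) : F →ₗ[ℝ] ℝ) ∘ₗ
      ((ContinuousLinearMap.apply ℝ F w : (F →L[ℝ] F) →L[ℝ] F) : (F →L[ℝ] F) →ₗ[ℝ] F)
  exact hR φ

lemma chi_eq (hw : w ≠ 0) {T : E →L[ℝ] E} {a : ℝ} (h : R T w = a • w) : chi R w T = a := by
  have : ‖w‖ ≠ 0 := norm_ne_zero_iff.2 hw
  rw [chi, h, inner_smul_right, real_inner_self_eq_norm_sq]
  field_simp

lemma apply_eq_chi (hw : w ≠ 0) {T : E →L[ℝ] E} (h : ∃ a : ℝ, R T w = a • w) :
    R T w = chi R w T • w := by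
  obtain ⟨a, ha⟩ := h
  rw [chi_eq hw ha, ha]

lemma chi_mul (hw : w ≠ 0) {S T : E →L[ℝ] E} (hS : ∃ a : ℝ, R S w = a • w)
    (hT : ∃ a : ℝ, R T w = a • w) : chi R w (S * T) = chi R w S * chi R w T := by
  apply chi_eq hw
  rw [map_mul]
  change R S (R T w) = _
  rw [apply_eq_chi hw hT, map_smul, apply_eq_chi hw hS, smul_smul, mul_comm]

lemma chi_one (hw : w ≠ 0) : chi R w 1 = 1 := by
  apply chi_eq hw
  rw [map_one, one_smul]
  rfl

/-- the derivative of `chi` at `1` -/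
noncomputable def lam (R : (E →L[ℝ] E) →* (F →L[ℝ] F)) (w : F) : (E →L[ℝ] E) →L[ℝ] ℝ :=
  fderiv ℝ (chi R w) 1

lemma hasDerivAt_chi (hR : IsPolyMap (R : (E →L[ℝ] E) → (F →L[ℝ] F))) (Z : E →L[ℝ] E) :
    HasDerivAt (fun t : ℝ => chi R w (exp (t • Z))) (lam R w Z) 0 := by
  have h0 : Differentiable ℝ (chi R w) := H64.PolyFun.differentiable (chi_polyFun hR)
  have h1 : HasFDerivAt (chi R w) (lam R w) 1 := (h0 1).hasFDerivAt
  have e : (1 : E →L[ℝ] E) = exp ((0 : ℝ) • Z) := by rw [zero_smul, exp_zero]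
  have h3 : HasFDerivAt (chi R w) (lam R w) (exp ((0 : ℝ) • Z)) := e ▸ h1
  exact HasFDerivAt.comp_hasDerivAt (0 : ℝ) h3 (hasDerivAt_exp0 Z)

lemma exp_add' (Z : E →L[ℝ] E) (s t : ℝ) : exp ((s + t) • Z) = exp (s • Z) * exp (t • Z) := by
  rw [add_smul]
  exact H64.exp_add_op (by rw [smul_mul_smul_comm, smul_mul_smul_comm, mul_comm])

lemma chi_exp_eq_one (hw : w ≠ 0) (hR : IsPolyMap (R : (E →L[ℝ] E) → (F →L[ℝ] F)))
    (h : ∀ g ∈ G, ∃ a : ℝ, R (g : E →L[ℝ] E) w = a • w) {Z : E →L[ℝ] E} (hZ : Z ∈ H64.lieA G)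
    (h0 : lam R w Z = 0) (t : ℝ) : chi R w (exp (t • Z)) = 1 := by
  have hl : ∀ t : ℝ, ∃ a : ℝ, R (exp (t • Z)) w = a • w := by
    intro t
    obtain ⟨g, hg, e⟩ := hZ t
    rw [← e]
    exact h g hg
  have h1 : ∀ t : ℝ, HasDerivAt (fun t : ℝ => chi R w (exp (t • Z))) 0 t := by
    intro t
    have h2 := hasDerivAt_chi (w := w) hR Z
    rw [h0] at h2
    have h3 : HasDerivAt (fun s : ℝ => chi R w (exp ((s - t) • Z))) 0 t := by
      have h5 : HasDerivAt (fun t : ℝ => chi R w (exp (t • Z))) 0 (t - t) := by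
        rw [sub_self]; exact h2
      have := h5.comp_sub_const t t
      exact this
    have h4 := h3.const_mul (chi R w (exp (t • Z)))
    rw [mul_zero] at h4
    refine h4.congr_of_eventuallyEq (Filter.Eventually.of_forall fun s => ?_)
    have e : s = t + (s - t) := by ring
    change chi R w (exp (s • Z)) = _
    conv_lhs => rw [e, exp_add', chi_mul hw (hl t) (hl (s - t))]
  have h2 : chi R w (exp (t • Z)) = chi R w (exp ((0 : ℝ) • Z)) :=
    is_const_of_deriv_eq_zero (f := fun t : ℝ => chi R w (exp (t • Z)))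
      (fun t => (h1 t).differentiableAt) (fun t => (h1 t).deriv) t 0
  rw [h2, zero_smul, exp_zero, chi_one hw]

lemma lam_conj (hw : w ≠ 0) (hR : IsPolyMap (R : (E →L[ℝ] E) → (F →L[ℝ] F)))
    (h : ∀ g ∈ G, ∃ a : ℝ, R (g : E →L[ℝ] E) w = a • w) {Y : E →L[ℝ] E} (hY : Y ∈ H64.lieA G)
    {g : (E →L[ℝ] E)ˣ} (hg : g ∈ G) :
    lam R w ((g : E →L[ℝ] E) * Y * ((g⁻¹ : (E →L[ℝ] E)ˣ) : E →L[ℝ] E)) = lam R w Y := by
  have h1 := hasDerivAt_chi (w := w) hR ((g : E →L[ℝ] E) * Y * ((g⁻¹ : (E →L[ℝ] E)ˣ) : E →L[ℝ] E))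
  have h2 := hasDerivAt_chi (w := w) hR Y
  refine h1.unique (h2.congr_of_eventuallyEq (Filter.Eventually.of_forall fun t => ?_))
  change chi R w (exp (t • ((g : E →L[ℝ] E) * Y * ((g⁻¹ : (E →L[ℝ] E)ˣ) : E →L[ℝ] E)))) =
    chi R w (exp (t • Y))
  have e1 : t • ((g : E →L[ℝ] E) * Y * ((g⁻¹ : (E →L[ℝ] E)ˣ) : E →L[ℝ] E)) =
      (g : E →L[ℝ] E) * (t • Y) * ((g⁻¹ : (E →L[ℝ] E)ˣ) : E →L[ℝ] E) := by
    rw [mul_smul_comm, smul_mul_assoc]
  obtain ⟨k, hk, ek⟩ := hY t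
  have e3 : chi R w ((g : E →L[ℝ] E) * k) = chi R w (g : E →L[ℝ] E) * chi R w (k : E →L[ℝ] E) :=
    chi_mul hw (h _ hg) (h _ hk)
  have e4 : chi R w (g : E →L[ℝ] E) * chi R w ((g⁻¹ : (E →L[ℝ] E)ˣ) : E →L[ℝ] E) = 1 := by
    rw [← chi_mul hw (h _ hg) (h _ (G.inv_mem hg)), ← Units.val_mul, mul_inv_cancel,
      Units.val_one, chi_one hw]
  have e5 := h _ (G.mul_mem hg hk)
  rw [Units.val_mul] at e5
  rw [e1, H64.exp_conj_op, ← ek, chi_mul hw e5 (h _ (G.inv_mem hg)), e3,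
    mul_right_comm, e4, one_mul]

lemma lam_bracket (hw : w ≠ 0) (hR : IsPolyMap (R : (E →L[ℝ] E) → (F →L[ℝ] F)))
    (h : ∀ g ∈ G, ∃ a : ℝ, R (g : E →L[ℝ] E) w = a • w) {X Y : E →L[ℝ] E} (hX : X ∈ H64.lieA G)
    (hY : Y ∈ H64.lieA G) : lam R w (X * Y - Y * X) = 0 := by
  have h1 := (lam R w).hasFDerivAt.comp_hasDerivAt (0 : ℝ) (hasDerivAt_conj_exp X Y)
  refine h1.unique ((hasDerivAt_const (0 : ℝ) (lam R w Y)).congr_of_eventuallyEq
    (Filter.Eventually.of_forall fun s => ?_))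
  have h2 := H64.mem_lieA.1 hX s
  have h3 := lam_conj hw hR h hY h2
  rw [H64.uexp_inv_val, H64.uexp_val, H64.uexp_val] at h3
  change lam R w (exp (s • X) * Y * exp (s • (-X))) = lam R w Y
  rw [smul_neg]
  exact h3

end char

section final

attribute [local instance 100] LieRing.ofAssociativeRing

variable {N m : ℕ} {G : Subgroup (Op N)ˣ}

lemma lam_eq_zero (hG : IsSemisimpleIrr G) {R : Op N →* Op m} {w : V m} (hw : w ≠ 0)
    (hR : IsPolyMap (R : Op N → Op m))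
    (h : ∀ g ∈ G, ∃ a : ℝ, R (g : Op N) w = a • w) {Z : Op N} (hZ : Z ∈ lieAlg G) :
    lam R w Z = 0 := by
  obtain ⟨𝔤, h𝔤, hs⟩ := hG.semisimple
  let f : 𝔤 →ₗ[ℝ] ℝ :=
    { toFun := fun x => lam R w (x : Op N)
      map_add' := fun x y => map_add (lam R w) (x : Op N) y
      map_smul' := fun c x => map_smul (lam R w) c (x : Op N) }
  have hf : f = 0 := by
    apply eq_zero_of_bracket
    intro x y
    have hx : (x : Op N) ∈ lieAlg G := h𝔤 ▸ x.2
    have hy : (y : Op N) ∈ lieAlg G := h𝔤 ▸ y.2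
    exact lam_bracket hw hR h hx hy
  have hZ' : Z ∈ 𝔤 := by
    have : Z ∈ (𝔤 : Set (Op N)) := h𝔤 ▸ hZ
    exact this
  exact congrArg (fun f : 𝔤 →ₗ[ℝ] ℝ => f ⟨Z, hZ'⟩) hf

/-- `R` fixes `w` on products of exponentials of elements of the Lie algebra. -/
lemma fixes_list (hG : IsSemisimpleIrr G) {R : Op N →* Op m} {w : V m} (hw : w ≠ 0)
    (hR : IsPolyMap (R : Op N → Op m))
    (h : ∀ g ∈ G, ∃ a : ℝ, R (g : Op N) w = a • w) (l : List (Op N))
    (hl : ∀ Z ∈ l, Z ∈ lieAlg G) : R (l.map exp).prod w = w := by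
  induction l with
  | nil => simp only [List.map_nil, List.prod_nil, map_one]; rfl
  | cons Z l ih =>
    have h1 := ih fun Z' h' => hl Z' (List.mem_cons_of_mem _ h')
    have hZ := hl Z List.mem_cons_self
    have h2 := chi_exp_eq_one hw hR h hZ (lam_eq_zero hG hw hR h hZ) 1
    rw [one_smul] at h2
    obtain ⟨g, hg, e⟩ := hZ 1
    rw [one_smul] at e
    have h3 := apply_eq_chi hw (h g hg)
    rw [e, h2, one_smul] at h3
    rw [List.map_cons, List.prod_cons, map_mul]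
    change R (exp Z) (R (l.map exp).prod w) = w
    rw [h1, h3]

end final

end H19

section final

attribute [local instance 100] LieRing.ofAssociativeRing

/-- Semisimple groups have no characters. -/
theorem fixes_of_line {N m : ℕ} {G : Subgroup (Op N)ˣ} (hG : IsSemisimpleIrr G)
    (R : Op N →* Op m) (hR : IsPolyMap (R : Op N → Op m)) (w : V m)
    (h : ∀ g ∈ G, ∃ a : ℝ, R (g : Op N) w = a • w) : ∀ g ∈ G, R (g : Op N) w = w := by
  intro g hg
  by_cases hw : w = 0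
  · rw [hw, map_zero]
  · have key : ∀ φ : V m →ₗ[ℝ] ℝ, φ (R (g : Op N) w - w) = 0 := by
      intro φ
      let ψ : Op m →ₗ[ℝ] ℝ := φ ∘ₗ
        ((ContinuousLinearMap.apply ℝ (V m) w : Op m →L[ℝ] V m) : Op m →ₗ[ℝ] V m)
      have hF : (fun T : Op N => ψ (R T) - φ w) ∈ PolyFun (Op N) :=
        PolyFun.sub (hR ψ) (PolyFun.const _)
      obtain ⟨p, hp⟩ := exists_polyVal hF
      have h1 := hG.connected p (fun l hl => by
        rw [← hp]
        have := H19.fixes_list hG hw hR h l hl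
        change φ (R (l.map exp).prod w) - φ w = 0
        rw [this, sub_self]) g hg
      rw [← hp] at h1
      rw [map_sub]
      exact h1
    have h2 := (Module.forall_dual_apply_eq_zero_iff ℝ (R (g : Op N) w - w)).1 key
    exact sub_eq_zero.1 h2

/-- the determinant as a polynomial function -/
lemma det_polyFun {N : ℕ} :
    (fun T : Op N => LinearMap.det (T : V N →ₗ[ℝ] V N)) ∈ PolyFun (Op N) := by
  classical
  let b := (EuclideanSpace.basisFun (Fin N) ℝ).toBasis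
  have e : (fun T : Op N => LinearMap.det (T : V N →ₗ[ℝ] V N)) = fun T : Op N =>
      ∑ σ : Equiv.Perm (Fin N), ((Equiv.Perm.sign σ : ℤ) : ℝ) *
        ∏ i, LinearMap.toMatrix b b (T : V N →ₗ[ℝ] V N) (σ i) i := by
    ext T
    rw [← LinearMap.det_toMatrix b, Matrix.det_apply']
  rw [e]
  refine PolyFun.sum _ fun σ _ => PolyFun.mul (PolyFun.const _) (PolyFun.prod _ fun i _ => ?_)
  let φ : Op N →ₗ[ℝ] ℝ := (Matrix.entryLinearMap ℝ ℝ (σ i) i) ∘ₗ
    (LinearMap.toMatrix b b).toLinearMap ∘ₗ (ContinuousLinearMap.coeLM ℝ)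
  exact PolyFun.linear φ

theorem det_eq_one {N : ℕ} {G : Subgroup (Op N)ˣ} (hG : IsSemisimpleIrr G) :
    ∀ g ∈ G, LinearMap.det ((g : Op N) : V N →ₗ[ℝ] V N) = 1 := by
  intro g hg
  let R : Op N →* Op 1 :=
    { toFun := fun T => LinearMap.det (T : V N →ₗ[ℝ] V N) • (1 : Op 1)
      map_one' := by
        have : ((1 : Op N) : V N →ₗ[ℝ] V N) = LinearMap.id := rfl
        simp only [this, LinearMap.det_id, one_smul]
      map_mul' := fun S T => by
        have : ((S * T : Op N) : V N →ₗ[ℝ] V N) = (S : V N →ₗ[ℝ] V N) * (T : V N →ₗ[ℝ] V N) := rfl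
        rw [this, map_mul]
        ext v i
        simp only [ContinuousLinearMap.smul_apply, ContinuousLinearMap.one_apply,
          PiLp.smul_apply, smul_eq_mul, ContinuousLinearMap.mul_apply, map_smul]
        ring }
  have hR : IsPolyMap (R : Op N → Op 1) := IsPolyMap.smul det_polyFun (IsPolyMap.const _)
  have hv : ∀ (T : Op N) (w : V 1), R T w = LinearMap.det (T : V N →ₗ[ℝ] V N) • w :=
    fun T w => rfl
  have h1 := fixes_of_line hG R hR (EuclideanSpace.single 0 (1 : ℝ)) (fun g _ => ⟨_, hv g _⟩) g hg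
  rw [hv] at h1
  have h2 := congrArg (fun v : V 1 => v 0) h1
  simpa using h2

/-- a Lie algebra of operators which is semisimple has trivial centre (needed to build
`IsConnectedSemisimple`) -/
theorem center_trivial {N : ℕ} {G : Subgroup (Op N)ˣ} (hG : IsSemisimpleIrr G) :
    ∀ Z ∈ lieAlg G, (∀ X ∈ lieAlg G, Z * X = X * Z) → Z = 0 := by
  intro Z hZ hc
  obtain ⟨𝔤, h𝔤, hs⟩ := hG.semisimple
  have hZ' : Z ∈ 𝔤 := by
    have : Z ∈ (𝔤 : Set (Op N)) := h𝔤 ▸ hZ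
    exact this
  have h1 : (⟨Z, hZ'⟩ : 𝔤) = 0 := by
    apply H19.eq_zero_of_central
    intro x
    have hx : (x : Op N) ∈ lieAlg G := h𝔤 ▸ x.2
    apply Subtype.ext
    change (x : Op N) * Z - Z * (x : Op N) = 0
    rw [hc _ hx, sub_self]
  exact congrArg (fun z : 𝔤 => (z : Op N)) h1

end final

end Pool.Agent.Lib.MP_d9b062_al
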